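import Pool.Agent.Q35.SM.Main
import Pool.Agent.Q285.MM.Ad
import Pool.Agent.Q285.MM.Lw
import Pool.Agent.Q144.MM.Db
import Pool.Agent.Q24.MM.MK
import Pool.Agent.Q261.SMA.Sa
import Pool.Agent.Q298.SM.T
import Pool.Agent.Q298.SM.B
import Pool.Agent.Q298.SM.D
import Pool.Agent.Q298.SM.E
import Pool.Agent.Q298.SM.F
import Pool.Agent.Q184.SM.Cnt
import Pool.Agent.Q79.SM.Nn
import Pool.Agent.Q79.SM.Gg
import Pool.Agent.Q285.SM.H

/-!
# The weak Manin conjecture for all smooth complete intersections of divisors of type `(1, ..., 1)` in
products of projective spaces of large dimension, over all number fields, for all big and nef classes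

`K` is a number field, `ι` a finite set of `s ≥ 2` indices, `n i` the dimension of the `i`-th
projective space (`i` in `ι`). `X` is a smooth complete intersection of `k` divisors of type
`(1, ..., 1)` in the product of the `s` projective spaces, with

`n i ≥ (k s - 1) (s - 1) + k - 1` for all `i`

(for `k = 1`, divisors of type `(1, ..., 1)`: `n i ≥ (s - 1) ^ 2`).

* `Form K n`: the coefficients of a multilinear form on the product of the spaces `K ^ (n i + 1)`:
  `c a` is the coefficient of the monomial `∏ x_i (a i)`; `value A c x` is its value at the family `x`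
  of vectors with coordinates in `A`.
* `Smooth c`: at all points over the algebraic closure of `K` at which the `k` forms vanish, no
  nontrivial linear combination of the `k` gradients is zero (the derivative of a multilinear form
  in the direction of a vector `v` in the `i`-th factor is the value of the form at the family in
  which `v` is the `i`-th vector).
* `Multihomogeneous g`: the polynomial `g` in the coordinates of all vectors is homogeneous in the
  coordinates of each vector.
* `IsIn c g x`: the `k` forms vanish at the point `x` and `g` does not: the point is in the open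
  subset `U` of `X` given by `g /= 0`.
* `threshold n k l`: the infimum of all real `t` such that `t L + K_X` is in the cone generated by the
  pull-backs of the hyperplane classes, for `L = (l i)`, `K_X = (-(n i + 1 - k))`.
* `bounded c g l T`: the points of `U` over `K` with `∏ H(x_i) ^ l i ≤ T`, where `H` is the
  multiplicative height of Mathlib (with respect to `K`).

Theorem: there is a multihomogeneous polynomial `g` such that the open subset `U` of `X` given by
`g /= 0` has a point over `K`, and for all `l` with `l i > 0` and all `ε > 0` there is a `C` such that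
for all `T ≥ 1` the number of the points of `U` of height at most `T` is finite and at most
`C T ^ (threshold n k l + ε)`.

(`X` is irreducible, `U` dense, the Picard group of `X` is generated by the pull-backs of the
hyperplane classes, the big and nef classes are the `(l i)` with all `l i > 0`, and the pseudo-effective
ones those with all `l i ≥ 0`. The same `U` works for all `L` and `ε`.)
-/

set_option autoImplicit false

namespace Pool.Agent.Results.MP_18ea5f_nt.AllSmoothMultilinear

open Finset Function MvPolynomial

section

variable (K : Type) [Field K] {ι : Type} (n : ι → ℕ)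

/-- The multilinear forms on the product of the spaces `K ^ (n i + 1)`, given by the coefficients. -/
abbrev Form : Type := (∀ i : ι, Fin (n i + 1)) → K

/-- The points of the product of the projective spaces. -/
abbrev Points : Type := ∀ i : ι, Projectivization K (Fin (n i + 1) → K)

/-- The polynomials in the coordinates of all vectors. -/
abbrev Polynomials : Type := MvPolynomial ((i : ι) × Fin (n i + 1)) K

variable {K n} [Fintype ι] [DecidableEq ι]

/-- The value of a multilinear form. -/
def value (A : Type) [CommRing A] [Algebra K A] (c : Form K n) (x : ∀ i, Fin (n i + 1) → A) : A :=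
  ∑ a, algebraMap K A (c a) * ∏ i, x i (a i)

/-- The complete intersection is smooth: at its points over the algebraic closure no nontrivial
linear combination of the gradients of the `k` forms is zero. -/
def Smooth {k : ℕ} (c : Fin k → Form K n) : Prop :=
  ∀ x : ∀ i, Fin (n i + 1) → AlgebraicClosure K, (∀ i, x i ≠ 0) →
    (∀ t, value (AlgebraicClosure K) (c t) x = 0) →
    ∀ μ : Fin k → AlgebraicClosure K, μ ≠ 0 →
      ∃ i, ∃ v : Fin (n i + 1) → AlgebraicClosure K,
        ∑ t, μ t * value (AlgebraicClosure K) (c t) (update x i v) ≠ 0

omit [DecidableEq ι] in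
/-- The polynomial is homogeneous in the coordinates of each vector. -/
def Multihomogeneous (g : Polynomials K n) : Prop :=
  ∃ δ : ι → ℕ, ∀ m ∈ g.support, ∀ i, ∑ a, m ⟨i, a⟩ = δ i

/-- The point `x` is in `U`: the forms vanish at `x`, and `g` does not. -/
def IsIn {k : ℕ} (c : Fin k → Form K n) (g : Polynomials K n) (x : Points K n) : Prop :=
  (∀ t, value K (c t) (fun i => (x i).rep) = 0) ∧ aeval (fun v => (x v.1).rep v.2) g ≠ 0

omit [Fintype ι] [DecidableEq ι] in
/-- The infimum of all `t` such that `t L + K_X` is in the cone generated by the pull-backs of the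
hyperplane classes, `L = (l i)`, `K_X = (-(n i + 1 - k))`. -/
noncomputable def threshold (n : ι → ℕ) (k : ℕ) (l : ι → ℝ) : ℝ :=
  sInf {t : ℝ | ∀ i, 0 ≤ t * l i - ((n i : ℝ) + 1 - k)}

/-- The points of `U` of height at most `T`. -/
def bounded [NumberField K] {k : ℕ} (c : Fin k → Form K n) (g : Polynomials K n) (l : ι → ℝ)
    (T : ℝ) : Set (Points K n) :=
  {x | IsIn c g x ∧ ∏ i, (x i).mulHeight ^ l i ≤ T}

end

theorem result (K : Type) [Field K] [NumberField K] (ι : Type) [Fintype ι] [DecidableEq ι]
    (hι : 2 ≤ Fintype.card ι) (n : ι → ℕ) (k : ℕ) (hk : 1 ≤ k)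
    (hn : ∀ i, (k * Fintype.card ι - 1) * (Fintype.card ι - 1) + k - 1 ≤ n i)
    (c : Fin k → Form K n) (hc : Smooth c) :
    ∃ g : Polynomials K n, Multihomogeneous g ∧ (∃ x : Points K n, IsIn c g x) ∧
      ∀ l : ι → ℝ, (∀ i, 0 < l i) → ∀ ε : ℝ, 0 < ε → ∃ C : ℝ, ∀ T : ℝ, 1 ≤ T →
        (bounded c g l T).Finite ∧
          ((bounded c g l T).ncard : ℝ) ≤ C * T ^ (threshold n k l + ε) :=
  have hC := Q184.SM.scnt _root_.Q144.MM.db
  Q35.SM.main Q285.MM.ad (Q298.SM.st Q261.SMA.sa) (Q298.SM.sd Q298.SM.sb) Q298.SM.se Q298.SM.sf
    (Q79.SM.sn hC Q285.MM.lw) (Q79.SM.sg hC _root_.Q144.MM.db) (Q285.SM.sh Q24.MM.mk) K ι hι n k hk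
    (fun i => by have := hn i; omega) c hc

end Pool.Agent.Results.MP_18ea5f_nt.AllSmoothMultilinear
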