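import Pool.Agent.Q35.EO.Fin
import Pool.Agent.Q285.MM.Ad
import Pool.Agent.Q285.MM.Lw
import Pool.Agent.Q144.MM.Db
import Pool.Agent.Q24.MM.MK
import Pool.Agent.Q261.SMA.Sa
import Pool.Agent.Q298.SM.T
import Pool.Agent.Q298.SM.B
import Pool.Agent.Q298.SM.D
import Pool.Agent.Q298.SM.E
import Pool.Agent.Q298.SM.F
import Pool.Agent.Q184.SM.Cnt
import Pool.Agent.Q79.SM.Gg
import Pool.Agent.Q151.LO.Rep
import Pool.Agent.Q151.LO.HbNo
import Pool.Agent.Q151.LO.Pig
import Pool.Agent.Q151.LO.Rev
import Pool.Agent.Q128.LO.SMALL
import Pool.Agent.Q128.LO.FR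
import Pool.Agent.Q162.LO.Reg
import Pool.Agent.Q162.LO.Sz
import Pool.Agent.Q162.LO.Sc
import Pool.Agent.Q166.EO.Lat
import Pool.Agent.Q176.EO.Fib
import Pool.Agent.Q176.EO.Sum2
import Pool.Agent.Q26.EO.St
import Pool.Agent.Q227.EO.De
import Pool.Agent.Q38.EO.HT

/-!
# The exact order of magnitude of the number of rational points of bounded height, for all big and nef
classes, on smooth complete intersections of divisors of type `(1, ..., 1)` in products of projective
spaces of large dimension, over all number fields

`K` is a number field, `ι` a finite set of `s ≥ 2` indices, `n i` the dimension of the `i`-th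
projective space (`i` in `ι`). `X` is a smooth complete intersection of `k` divisors of type
`(1, ..., 1)` in the product of the `s` projective spaces, with

`n i + 1 ≥ k s (s - 1) + k` for all `i`.

* `Form K n`: the coefficients of a multilinear form on the product of the spaces `K ^ (n i + 1)`:
  `c a` is the coefficient of the monomial `∏ x_i (a i)`; `value A c x` is its value at the family `x`
  of vectors with coordinates in `A`.
* `Smooth c`: at all points over the algebraic closure of `K` at which the `k` forms vanish, no
  nontrivial linear combination of the `k` gradients is zero (the derivative of a multilinear form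
  in the direction of a vector `v` in the `i`-th factor is the value of the form at the family in
  which `v` is the `i`-th vector).
* `Multihomogeneous g`: the polynomial `g` in the coordinates of all vectors is homogeneous in the
  coordinates of each vector.
* `IsIn c A x`: the `k` forms vanish at the point `x`, and some polynomial in the finite set `A` does
  not: the point is in the open subset `U` of `X`, the complement of the common zeros of `A`.
* `threshold n k l`: the Fujita invariant `a` of `L = (l i)`, the infimum of all real `t` such that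
  `t L + K_X` is in the cone generated by the pull-backs of the hyperplane classes, for
  `K_X = (-(n i + 1 - k))`.
* `multiplicity n k l`: the codimension `b` of the smallest face of this cone which contains
  `a L + K_X`, that is, the number of the `i` with `a l i = n i + 1 - k`.
* `bounded c A h l T`: the points of `U` over `K` at which `h` does not vanish, with
  `∏ H(x_i) ^ l i ≤ T`, where `H` is the multiplicative height of Mathlib (with respect to `K`).

Theorem: there is a nonempty open subset `U` of `X` such that for all `L = (l i)` with `l i > 0` the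
number `N` of the points of `U` over `K` of height at most `T` satisfies
`c T ^ a (log T) ^ (b - 1) ≤ N ≤ C T ^ a (1 + log T) ^ (b - 1)`, the order of magnitude predicted by
Manin and Batyrev; and the lower bound holds for each nonempty open subset of `U`.

(`X` is irreducible, `U` is dense and has points over `K`. The Picard group of `X` is generated by the
pull-backs of the hyperplane classes, the big and nef classes are the `(l i)` with all `l i > 0`, and
the pseudo-effective ones those with all `l i ≥ 0`. The same `U` works for all `L`.)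
-/

set_option autoImplicit false

namespace Pool.Agent.Results.MP_18ea5f_nt.ExactOrderMultilinear

open Finset Function MvPolynomial

section

variable (K : Type) [Field K] {ι : Type} (n : ι → ℕ)

/-- The multilinear forms on the product of the spaces `K ^ (n i + 1)`, given by the coefficients. -/
abbrev Form : Type := (∀ i : ι, Fin (n i + 1)) → K

/-- The points of the product of the projective spaces. -/
abbrev Points : Type := ∀ i : ι, Projectivization K (Fin (n i + 1) → K)

/-- The polynomials in the coordinates of all vectors. -/
abbrev Polynomials : Type := MvPolynomial ((i : ι) × Fin (n i + 1)) K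

variable {K n} [Fintype ι] [DecidableEq ι]

/-- The value of a multilinear form. -/
def value (A : Type) [CommRing A] [Algebra K A] (c : Form K n) (x : ∀ i, Fin (n i + 1) → A) : A :=
  ∑ a, algebraMap K A (c a) * ∏ i, x i (a i)

/-- The complete intersection is smooth: at its points over the algebraic closure no nontrivial
linear combination of the gradients of the `k` forms is zero. -/
def Smooth {k : ℕ} (c : Fin k → Form K n) : Prop :=
  ∀ x : ∀ i, Fin (n i + 1) → AlgebraicClosure K, (∀ i, x i ≠ 0) →
    (∀ t, value (AlgebraicClosure K) (c t) x = 0) →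
    ∀ μ : Fin k → AlgebraicClosure K, μ ≠ 0 →
      ∃ i, ∃ v : Fin (n i + 1) → AlgebraicClosure K,
        ∑ t, μ t * value (AlgebraicClosure K) (c t) (update x i v) ≠ 0

omit [DecidableEq ι] in
/-- The polynomial is homogeneous in the coordinates of each vector. -/
def Multihomogeneous (g : Polynomials K n) : Prop :=
  ∃ δ : ι → ℕ, ∀ m ∈ g.support, ∀ i, ∑ a, m ⟨i, a⟩ = δ i

/-- The point `x` is in `U`: the forms vanish at `x`, and some `g` in `A` does not. -/
def IsIn {k : ℕ} (c : Fin k → Form K n) (A : Finset (Polynomials K n)) (x : Points K n) : Prop :=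
  (∀ t, value K (c t) (fun i => (x i).rep) = 0) ∧ ∃ g ∈ A, aeval (fun v => (x v.1).rep v.2) g ≠ 0

omit [Fintype ι] [DecidableEq ι] in
/-- The infimum of all `t` such that `t L + K_X` is in the cone generated by the pull-backs of the
hyperplane classes, `L = (l i)`, `K_X = (-(n i + 1 - k))`. -/
noncomputable def threshold (n : ι → ℕ) (k : ℕ) (l : ι → ℝ) : ℝ :=
  sInf {t : ℝ | ∀ i, 0 ≤ t * l i - ((n i : ℝ) + 1 - k)}

omit [Fintype ι] [DecidableEq ι] in
/-- The codimension of the smallest face of this cone which contains `a L + K_X`, where `a` is the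
threshold: the number of the coordinates of `a L + K_X` which are zero. -/
noncomputable def multiplicity (n : ι → ℕ) (k : ℕ) (l : ι → ℝ) : ℕ :=
  {i : ι | threshold n k l * l i = (n i : ℝ) + 1 - k}.ncard

/-- The points of `U` of height at most `T` at which `h` does not vanish. -/
def bounded [NumberField K] {k : ℕ} (c : Fin k → Form K n) (A : Finset (Polynomials K n))
    (h : Polynomials K n) (l : ι → ℝ) (T : ℝ) : Set (Points K n) :=
  {x | (IsIn c A x ∧ aeval (fun v => (x v.1).rep v.2) h ≠ 0) ∧ ∏ i, (x i).mulHeight ^ l i ≤ T}

end

theorem result (K : Type) [Field K] [NumberField K] (ι : Type) [Fintype ι] [DecidableEq ι]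
    (hι : 2 ≤ Fintype.card ι) (n : ι → ℕ) (k : ℕ) (hk : 1 ≤ k)
    (hn : ∀ i, k * Fintype.card ι * (Fintype.card ι - 1) + k ≤ n i + 1)
    (c : Fin k → Form K n) (hc : Smooth c) :
    ∃ A : Finset (Polynomials K n), (∀ g ∈ A, Multihomogeneous g) ∧
      (∃ x : Points K n, IsIn c A x) ∧
      (∀ l : ι → ℝ, (∀ i, 0 < l i) → ∃ C : ℝ, ∀ T : ℝ, 1 ≤ T →
        (bounded c A 1 l T).Finite ∧
          ((bounded c A 1 l T).ncard : ℝ) ≤
            C * T ^ threshold n k l * (1 + Real.log T) ^ (multiplicity n k l - 1)) ∧
      ∀ h : Polynomials K n, Multihomogeneous h →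
        (∃ x : ∀ i, Fin (n i + 1) → AlgebraicClosure K,
          (∀ t, value (AlgebraicClosure K) (c t) x = 0) ∧
            ∃ g ∈ A, aeval (fun v => x v.1 v.2) (g * h) ≠ 0) →
        ∀ l : ι → ℝ, (∀ i, 0 < l i) → ∃ c1 B1 : ℝ, 0 < c1 ∧ ∀ B : ℝ, B1 ≤ B →
          c1 * B ^ threshold n k l * Real.log B ^ (multiplicity n k l - 1) ≤
            ((bounded c A h l B).ncard : ℝ) := by
  have hC := Q184.SM.scnt _root_.Q144.MM.db
  have hS := Q128.LO.SMALL.small Q151.LO.rep Q151.LO.rev Q24.MM.mk
  have hSC := Q162.LO.sc Q151.LO.rep Q151.LO.hb Q151.LO.pig hS Q128.LO.FR.fr Q162.LO.reg Q162.LO.sz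
  have hNO := Q151.LO.no Q24.MM.mk
  obtain ⟨A, h1, h2, h3, h4, -⟩ := Q35.EO.main Q285.MM.ad (Q298.SM.st Q261.SMA.sa)
    (Q298.SM.sd Q298.SM.sb) Q298.SM.se Q298.SM.sf hC Q285.MM.lw (Q79.SM.sg hC _root_.Q144.MM.db)
    (Q26.EO.st Q166.EO.lat (Q176.EO.fib hC _root_.Q144.MM.db) _root_.Q144.MM.db) Q227.EO.de
    (Q38.EO.ht Q24.MM.mk) hSC Q176.EO.sum2 hNO K ι hι n k hk hn c hc
  refine ⟨A, h1, h2, fun l hl => ?_, h4⟩
  obtain ⟨C, hC1⟩ := h3 l hl
  refine ⟨C, fun T hT => ?_⟩
  have e : bounded c A 1 l T = {x : Points K n | IsIn c A x ∧ ∏ i, (x i).mulHeight ^ l i ≤ T} := by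
    ext x
    simp [bounded]
  rw [e]
  exact hC1 T hT

end Pool.Agent.Results.MP_18ea5f_nt.ExactOrderMultilinear
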