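import Pool.Agent.Q35.MM.FB
import Pool.Agent.Q24.MM.MK
import Pool.Agent.Q24.MM.TB
import Pool.Agent.Q92.MM.Fs
import Pool.Agent.Q144.MM.Db
import Pool.Agent.Q144.MM.Cr
import Pool.Agent.Q285.MM.Ad
import Pool.Agent.Q150.MM.Gb
import Pool.Agent.Q241.MM.Fin
import Pool.Agent.Q241.MM.Ne

/-!
# The weak Manin conjecture for complete intersections of divisors of type `(1, ..., 1)` in products
of any number of projective spaces, over all number fields, for all big and nef classes

`K` is a number field, `ι` a finite set of at least two indices, `n i` the dimension of the `i`-th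
projective space (`i` in `ι`), and `f t` (`t < k`) are `K`-multilinear forms on the product of the
spaces `K ^ (n i + 1)`. The variety `X` is given by `f t = 0` for all `t`: a complete intersection of
`k` divisors of type `(1, ..., 1)` in the product of the projective spaces of dimension `n i`. If `X`
is smooth and `n i ≥ 2`, `n i > k`, then the Picard group is generated by the pull-backs of the
hyperplane classes, the classes of the divisors which are effective (nef, big and nef) are the
vectors `(l i)` with all `l i ≥ 0` (`l i ≥ 0`, `l i > 0`), and the canonical class is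
`(-(n i + 1 - k))`.

* `Form K n`: the multilinear forms; `Vectors K n`: the families of vectors.
* `bilinear g P i j`: the matrix of the bilinear form which one gets from `g` if one inserts the
  vectors `P l` for `l ≠ i, j`.
* `Rank r g`: if one inserts nonzero vectors with coordinates in `K` in all arguments of `g` but two
  (the `i`-th and the `j`-th), the rank of the bilinear form is at least `r`.
* `slot f P i`: the `k` linear forms in the `i`-th vector which one gets if one inserts `P l` for all
  `l ≠ i` in the forms `f t`.
* `OpenPart f P`: `P` is a zero of all `f t`, and for all `i` the `k` linear forms `slot f P i` are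
  linearly independent. This is the open subset `U` of `X` where the `i`-th fibre has the expected
  dimension for all `i`.
* `threshold n k l`: the infimum of all real `s` such that `s L + K_X` is in the cone generated by
  the pull-backs of the hyperplane classes, for `L = (l i)`.
* `bounded f l T`: the points of `U` with `∏ H(x_i) ^ l i ≤ T`, where `H` is the multiplicative
  height of Mathlib (with respect to `K`).

Theorem: let `n i ≥ k ^ 2 * (s - 1)` for all `i`, `s` the number of the projective spaces, and let
`Rank (k ^ 2 + 1)` be true for all nontrivial linear combinations of the forms `f t` over `K`. Then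
`U` has a point over `K`, and for all `l` with `l i > 0` and all `ε > 0` there is a `C` such that for
all `T ≥ 1` the number of the points of `U` of height at most `T` is at most
`C T ^ (threshold n k l + ε)`.

For `k = 1` the conditions are: `n i ≥ s - 1`, and the bilinear forms have rank at least `2`, i.e. the
fibres of `X` over the rational points of the products of all projective spaces but two are integral
hypersurfaces of type `(1, 1)`.
-/

set_option autoImplicit false

namespace Pool.Agent.Results.MP_18ea5f_nt.MultilinearCompleteIntersections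

open Finset Function

section

variable (K : Type) [Field K] {ι : Type}

/-- The multilinear forms on the product of the spaces `K ^ (n i + 1)`. -/
abbrev Form (n : ι → ℕ) : Type := MultilinearMap K (fun i : ι => Fin (n i + 1) → K) K

/-- The families of vectors. -/
abbrev Vectors (n : ι → ℕ) : Type := ∀ i : ι, Fin (n i + 1) → K

/-- The points of the product of the projective spaces. -/
abbrev Points (n : ι → ℕ) : Type := ∀ i : ι, Projectivization K (Fin (n i + 1) → K)

variable {K} [DecidableEq ι] {n : ι → ℕ}

/-- The matrix of the bilinear form in the `i`-th and the `j`-th argument which one gets from `g` if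
one inserts the vectors `P l` for `l ≠ i, j`. -/
def bilinear (g : Form K n) (P : Vectors K n) (i j : ι) :
    Matrix (Fin (n i + 1)) (Fin (n j + 1)) K :=
  fun a b => g (update (update P i (Pi.single a 1)) j (Pi.single b 1))

/-- All bilinear forms which one gets from `g` by nonzero vectors with coordinates in `K` have rank
at least `r`. -/
def Rank (r : ℕ) (g : Form K n) : Prop :=
  ∀ i j, i ≠ j → ∀ P : Vectors K n, (∀ l, l ≠ i → l ≠ j → P l ≠ 0) → r ≤ (bilinear g P i j).rank

/-- The linear forms in the `i`-th vector. -/
def slot {k : ℕ} (f : Fin k → Form K n) (P : Vectors K n) (i : ι) :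
    Fin k → (Fin (n i + 1) → K) →ₗ[K] K :=
  fun t => (f t).toLinearMap P i

/-- The open subset `U` of `X`. -/
def OpenPart {k : ℕ} (f : Fin k → Form K n) (P : Vectors K n) : Prop :=
  (∀ t, f t P = 0) ∧ ∀ i, LinearIndependent K (slot f P i)

/-- The infimum of all `s` such that `s L + K_X` is in the cone generated by the pull-backs of the
hyperplane classes, `L = (l i)`, `K_X = (-(n i + 1 - k))`. -/
noncomputable def threshold (n : ι → ℕ) (k : ℕ) (l : ι → ℝ) : ℝ :=
  sInf {s : ℝ | ∀ i, 0 ≤ s * l i - ((n i : ℝ) + 1 - k)}

/-- The points of `U` of height at most `T`. -/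
def bounded [NumberField K] [Fintype ι] {k : ℕ} (f : Fin k → Form K n) (l : ι → ℝ) (T : ℝ) :
    Set (Points K n) :=
  {x | OpenPart f (fun i => (x i).rep) ∧ ∏ i, (x i).mulHeight ^ l i ≤ T}

end

theorem result (K : Type) [Field K] [NumberField K] (ι : Type) [Fintype ι] [DecidableEq ι]
    (hι : 2 ≤ Fintype.card ι) (n : ι → ℕ) (k : ℕ) (hk : 1 ≤ k)
    (hn : ∀ i, k ^ 2 * (Fintype.card ι - 1) ≤ n i) (f : Fin k → Form K n)
    (hf : ∀ μ : Fin k → K, μ ≠ 0 → Rank (k ^ 2 + 1) (∑ t, μ t • f t)) :
    (∃ x : Points K n, OpenPart f fun i => (x i).rep) ∧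
    ∀ l : ι → ℝ, (∀ i, 0 < l i) → ∀ ε : ℝ, 0 < ε → ∃ C : ℝ, ∀ T : ℝ, 1 ≤ T →
      (bounded f l T).Finite ∧ ((bounded f l T).ncard : ℝ) ≤ C * T ^ (threshold n k l + ε) := by
  have hf' : ∀ μ : Fin k → K, μ ≠ 0 → Q35.MM.RkGe (k ^ 2 + 1) (∑ t, μ t • f t) := hf
  have hkn : ∀ i, k ≤ n i := fun i => by
    refine le_trans ?_ (hn i)
    have h1 : 1 ≤ Fintype.card ι - 1 := by omega
    nlinarith [Nat.mul_le_mul_left (k ^ 2) h1]
  refine ⟨?_, ?_⟩
  · obtain ⟨P, hP⟩ := Q241.MM.ne_thm K ι n k f hι hk hn hf'
    have hP0 : ∀ i, P i ≠ 0 := by
      intro i hi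
      obtain ⟨j, hj⟩ : ∃ j, j ≠ i := Fintype.exists_ne_of_one_lt_card (by omega) i
      have h1 := (hP.2 j).ne_zero ⟨0, hk⟩
      apply h1
      refine LinearMap.ext fun x => ?_
      change f ⟨0, hk⟩ (update P j x) = 0
      refine MultilinearMap.map_coord_zero _ i ?_
      rw [update_of_ne hj.symm, hi]
    refine ⟨fun i => Projectivization.mk K (P i) (hP0 i), ?_⟩
    have h1 : ∀ i, ∃ c : Kˣ, c • (Projectivization.mk K (P i) (hP0 i)).rep = P i := fun i => by
      obtain ⟨c, hc⟩ := Projectivization.exists_smul_eq_mk_rep K (P i) (hP0 i)
      exact ⟨c⁻¹, by rw [← hc, inv_smul_smul]⟩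
    choose c hc using h1
    have h2 := Q241.MM.inU_smul f (c := fun i => ((c i)⁻¹ : Kˣ)) (fun i => Units.ne_zero _) hP
    have h3 : (fun i => (((c i)⁻¹ : Kˣ) : K) • P i) =
        fun i => (Projectivization.mk K (P i) (hP0 i)).rep := by
      funext i
      rw [← Units.smul_def, inv_smul_eq_iff]
      exact (hc i).symm
    rw [h3] at h2
    exact h2
  · exact Q241.MM.fin Q24.MM.mk K ι n k f hι hk hkn
      (fun δ hδ => Q35.MM.fb Q285.MM.ad
        (Q24.MM.tb (Q150.MMG.gb Q285.MM.ad _root_.Q144.MM.db) _root_.Q144.MM.cr _root_.Q144.MM.db)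
        (Q92.MM.fs _root_.Q144.MM.db) K ι n k f hι hk hn hf' δ hδ)

end Pool.Agent.Results.MP_18ea5f_nt.MultilinearCompleteIntersections
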