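import Pool.Agent.Q279.MC.All
import Pool.Agent.Q279.MC.NE

/-!
# The weak Manin conjecture for bundles of quadrics over a projective space, over number fields

Let `K` be a number field, `a_1, ..., a_r ∈ K` not zero (`r ≥ 2`), `e_1, ..., e_s ≥ 0` (`s ≥ 1`) and
`f_kl` forms of degree `e_k + e_l` in `N` variables over `K`. The variety `X` is given by
`a_1 y_1 ^ 2 + ... + a_r y_r ^ 2 = ∑ f_kl(u) t_k t_l` in the projective bundle over `P ^ (N-1)` with
the coordinates `(u; y, t)`, where `(u; y, t) = (c u; y, c ^ (-e_k) t_k) = (u; c y, c t)`. The points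
of `X` are determined by `[u]` and by `[y : t_k u_j ^ (e_k)]`.
-/

set_option autoImplicit false
set_option linter.all false

open scoped LinearAlgebra.Projectivization

namespace Pool.Agent.Results.MP_18ea5f_nt.QuadricBundles

section defs

variable {K : Type} [Field K] {r s N : ℕ}

/-- The coordinates `y_i` and `t_k u_j ^ (e k)`. -/
def coords (e : Fin s → ℕ) (u : Fin N → K) (y : Fin r → K) (t : Fin s → K) :
    Fin r ⊕ (Fin s × Fin N) → K :=
  Sum.elim y fun p => t p.1 * u p.2 ^ e p.1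

/-- `∑ f_kl(u) t_k t_l`. -/
noncomputable def form (f : Fin s → Fin s → MvPolynomial (Fin N) K) (u : Fin N → K)
    (t : Fin s → K) : K :=
  ∑ k, ∑ l, MvPolynomial.eval u (f k l) * t k * t l

/-- The points `(p, w) = ([u], [y : t_k u_j ^ (e k)])` of `X` with `p ∈ B`, with all `t_k ≠ 0` and
`∑ a_i y_i ^ 2 ≠ 0`. For `B = univ` these are the `K`-points of the open subset `U` of `X`. -/
def points (a : Fin r → K) (e : Fin s → ℕ) (f : Fin s → Fin s → MvPolynomial (Fin N) K)
    (B : Set (ℙ K (Fin N → K))) : Set (ℙ K (Fin N → K) × ℙ K (Fin r ⊕ (Fin s × Fin N) → K)) :=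
  {x | x.1 ∈ B ∧ ∃ (y : Fin r → K) (t : Fin s → K), x.2.rep = coords e x.1.rep y t ∧
    (∀ k, t k ≠ 0) ∧ ∑ i, a i * y i ^ 2 = form f x.1.rep t ∧ ∑ i, a i * y i ^ 2 ≠ 0}

/-- The points of `U` over the algebraic closure of `K`. -/
def geometricPoints (a : Fin r → K) (e : Fin s → ℕ) (f : Fin s → Fin s → MvPolynomial (Fin N) K) :
    Set (ℙ (AlgebraicClosure K) (Fin N → AlgebraicClosure K) ×
      ℙ (AlgebraicClosure K) (Fin r ⊕ (Fin s × Fin N) → AlgebraicClosure K)) :=
  points (fun i => algebraMap K (AlgebraicClosure K) (a i)) e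
    (fun k l => MvPolynomial.map (algebraMap K (AlgebraicClosure K)) (f k l)) Set.univ

/-- The infimum of the `σ` with `σ β ≥ n` and `σ α + E + m σ β ≥ A + m n`. -/
noncomputable def threshold (n E m A α β : ℝ) : ℝ :=
  sInf {σ : ℝ | n ≤ σ * β ∧ A + m * n ≤ σ * α + E + m * (σ * β)}

end defs

section height

variable {K : Type} [Field K] [NumberField K] {V W : Type} [Fintype V] [Fintype W]

/-- The number of the `x ∈ S` with `H(x.1) ^ α H(x.2) ^ β ≤ T` is finite and at most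
`C T ^ σ` for all `T ≥ 1`. -/
def bounded (S : Set (ℙ K (V → K) × ℙ K (W → K))) (α β σ C : ℝ) : Prop :=
  ∀ T : ℝ, 1 ≤ T → {x | x ∈ S ∧ x.1.mulHeight ^ α * x.2.mulHeight ^ β ≤ T}.Finite ∧
    ({x | x ∈ S ∧ x.1.mulHeight ^ α * x.2.mulHeight ^ β ≤ T}.ncard : ℝ) ≤ C * T ^ σ

/-- For every `ε > 0` there are `O(T ^ (A + ε))` points of height at most `T` in `B`. -/
def exponent (B : Set (ℙ K (V → K))) (A : ℝ) : Prop :=
  ∀ ε : ℝ, 0 < ε → ∃ C : ℝ, ∀ T : ℝ, 1 ≤ T → {p | p ∈ B ∧ p.mulHeight ≤ T}.Finite ∧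
    ({p | p ∈ B ∧ p.mulHeight ≤ T}.ncard : ℝ) ≤ C * T ^ (A + ε)

end height

section proof

open Pool.Agent.Q279.MC

variable {K : Type} [Field K] [NumberField K] {r s N : ℕ}

theorem set_eq (a : Fin r → K) (e : Fin s → ℕ) (f : Fin s → Fin s → MvPolynomial (Fin N) K)
    (B : Set (ℙ K (Fin N → K))) (α β T : ℝ) :
    {x : ℙ K (Fin N → K) × ℙ K (Fin r ⊕ (Fin s × Fin N) → K) |
      x ∈ points a e f B ∧ x.1.mulHeight ^ α * x.2.mulHeight ^ β ≤ T} =
    {x | x.1 ∈ B ∧ x.2 ∈ Fib a e x.1.rep (fun k l => MvPolynomial.eval x.1.rep (f k l)) ∧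
      x.1.mulHeight ^ α * x.2.mulHeight ^ β ≤ T} := by
  ext x
  simp only [points, Fib, Set.mem_setOf_eq, form, coords, vec]
  tauto

theorem thr_eq (m : ℕ) (e : Fin s → ℕ) (A α β : ℝ) :
    thr r s m e A α β = threshold (r + s - 2) (∑ k, (e k : ℝ)) m A α β := by
  unfold thr threshold
  congr 1
  ext σ
  simp only [Set.mem_setOf_eq]
  constructor
  · rintro ⟨h1, h2⟩
    exact ⟨by linarith, by nlinarith⟩
  · rintro ⟨h1, h2⟩
    exact ⟨by linarith, by nlinarith⟩

theorem exponent_univ (K : Type) [Field K] [NumberField K] (N : ℕ) :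
    exponent (Set.univ : Set (ℙ K (Fin N → K))) N := by
  intro ε hε
  obtain ⟨C, hC⟩ := all_FP K N
  refine ⟨|C|, fun T hT => ?_⟩
  obtain ⟨h1, h2⟩ := hC T hT
  have he : {p : ℙ K (Fin N → K) | p ∈ (Set.univ : Set (ℙ K (Fin N → K))) ∧ p.mulHeight ≤ T} =
      {p | p.mulHeight ≤ T} := by
    ext p; simp
  rw [he]
  refine ⟨h1, h2.trans ?_⟩
  have h3 : T ^ (N : ℝ) ≤ T ^ ((N : ℝ) + ε) := Real.rpow_le_rpow_of_exponent_le hT (by linarith)
  have h4 : 0 ≤ T ^ (N : ℝ) := Real.rpow_nonneg (by linarith) _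
  calc C * T ^ (N : ℝ) ≤ |C| * T ^ (N : ℝ) := by
        exact mul_le_mul_of_nonneg_right (le_abs_self C) h4
    _ ≤ |C| * T ^ ((N : ℝ) + ε) := mul_le_mul_of_nonneg_left h3 (abs_nonneg C)

/-- A point of `U` over an algebraically closed field. -/
theorem nonempty_points {L : Type} [Field L] [CharZero L] [IsAlgClosed L] (hN : 1 ≤ N) (hr : 2 ≤ r)
    (a : Fin r → L) (e : Fin s → ℕ) (f : Fin s → Fin s → MvPolynomial (Fin N) L)
    (ha : ∀ i, a i ≠ 0) (hf : ∀ k l, (f k l).IsHomogeneous (e k + e l))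
    (h : ∃ k l, f k l + f l k ≠ 0) : (points a e f Set.univ).Nonempty := by
  classical
  obtain ⟨v, t, hv, ht, hval⟩ := NE.exists_value f hN h
  obtain ⟨c, hc⟩ := Projectivization.exists_smul_eq_mk_rep L v hv
  set p : ℙ L (Fin N → L) := Projectivization.mk L v hv with hp
  have hc0 : (c : L) ≠ 0 := c.ne_zero
  have hrep : p.rep = (c : L) • v := by rw [← hc]; rfl
  set t' : Fin s → L := fun k => ((c : L) ^ e k)⁻¹ * t k with ht'
  have hval' : form f p.rep t' = ∑ k, ∑ l, MvPolynomial.eval v (f k l) * t k * t l := by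
    unfold form
    refine Finset.sum_congr rfl fun k _ => Finset.sum_congr rfl fun l _ => ?_
    rw [hrep, NE.eval_smul (hf k l), ht', pow_add]
    field_simp
  set γ : L := form f p.rep t' with hγ
  have hγ0 : γ ≠ 0 := by rw [hval']; exact hval
  obtain ⟨z, hz⟩ := IsAlgClosed.exists_pow_nat_eq (γ / a ⟨0, by omega⟩) (n := 2) (by norm_num)
  set y : Fin r → L := Pi.single ⟨0, by omega⟩ z with hy
  have hsum : ∑ i, a i * y i ^ 2 = γ := by
    rw [Finset.sum_eq_single (⟨0, by omega⟩ : Fin r)]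
    · rw [hy, Pi.single_eq_same, hz]
      field_simp [ha ⟨0, by omega⟩]
    · intro i _ hi
      rw [hy, Pi.single_eq_of_ne hi]
      ring
    · simp
  have hW : coords e p.rep y t' ≠ 0 := by
    intro h0
    apply hγ0
    rw [← hsum]
    refine Finset.sum_eq_zero fun i _ => ?_
    have := congrFun h0 (Sum.inl i)
    simp only [coords, Sum.elim_inl, Pi.zero_apply] at this
    rw [this]; ring
  obtain ⟨μ, hμ⟩ := Projectivization.exists_smul_eq_mk_rep L (coords e p.rep y t') hW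
  have hμ0 : (μ : L) ≠ 0 := μ.ne_zero
  refine ⟨(p, Projectivization.mk L _ hW), Set.mem_univ _, (μ : L) • y, (μ : L) • t', ?_, ?_, ?_, ?_⟩
  · show (Projectivization.mk L (coords e p.rep y t') hW).rep = coords e p.rep _ _
    rw [← hμ]
    funext j
    rcases j with i | ⟨k, j⟩
    · rfl
    · simp only [coords, Pi.smul_apply, Sum.elim_inr, smul_eq_mul, Units.smul_def]
      ring
  · intro k
    simp only [Pi.smul_apply, smul_eq_mul, ht']
    exact mul_ne_zero hμ0 (mul_ne_zero (inv_ne_zero (pow_ne_zero _ hc0)) (ht k))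
  · have e1 : form f p.rep ((μ : L) • t') = (μ : L) ^ 2 * γ := by
      rw [hγ]
      unfold form
      rw [Finset.mul_sum]
      refine Finset.sum_congr rfl fun k _ => ?_
      rw [Finset.mul_sum]
      refine Finset.sum_congr rfl fun l _ => ?_
      simp only [Pi.smul_apply, smul_eq_mul]
      ring
    show ∑ i, a i * ((μ : L) • y) i ^ 2 = form f p.rep ((μ : L) • t')
    rw [e1, ← hsum, Finset.mul_sum]
    refine Finset.sum_congr rfl fun i _ => ?_
    simp only [Pi.smul_apply, smul_eq_mul]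
    ring
  · have e2 : ∑ i, a i * ((μ : L) • y) i ^ 2 = (μ : L) ^ 2 * γ := by
      rw [← hsum, Finset.mul_sum]
      refine Finset.sum_congr rfl fun i _ => ?_
      simp only [Pi.smul_apply, smul_eq_mul]
      ring
    rw [e2]
    exact mul_ne_zero (pow_ne_zero _ hμ0) hγ0

theorem nonempty_geometric {K : Type} [Field K] [NumberField K] {r s N : ℕ} (hN : 1 ≤ N)
    (hr : 2 ≤ r) (a : Fin r → K) (e : Fin s → ℕ) (f : Fin s → Fin s → MvPolynomial (Fin N) K)
    (ha : ∀ i, a i ≠ 0) (hf : ∀ k l, (f k l).IsHomogeneous (e k + e l))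
    (h : ∃ k l, f k l + f l k ≠ 0) : (geometricPoints a e f).Nonempty := by
  unfold geometricPoints
  refine nonempty_points hN hr _ e _ (fun i => ?_) (fun k l => (hf k l).map _) ?_
  · rw [Ne, map_eq_zero]; exact ha i
  · obtain ⟨k, l, hkl⟩ := h
    refine ⟨k, l, fun h0 => hkl ?_⟩
    rw [← map_add] at h0
    exact MvPolynomial.map_injective _ (algebraMap K (AlgebraicClosure K)).injective
      (by rw [h0, map_zero])

end proof

/-- For all `L = α F + β H` with `α ≥ 0`, `β > 0`, `α + m β > 0` (`m` the maximum of the `e_k`) and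
all `ε > 0` the open subset `U` of `X` has `O(T ^ (a + ε))` points of height `H_L ≤ T`, where
`a = inf {σ : σ β ≥ r + s - 2, σ (α + m β) ≥ N - ∑ e_k + m (r + s - 2)}`; and over a set `B` of points
of the base with counting exponent `A` the same holds with `A` instead of `N`. -/
theorem result :
    ∀ (K : Type) [Field K] [NumberField K] (r s N m : ℕ), 2 ≤ r → 1 ≤ s → 1 ≤ N →
    ∀ (a : Fin r → K) (e : Fin s → ℕ) (f : Fin s → Fin s → MvPolynomial (Fin N) K),
    (∀ i, a i ≠ 0) → (∀ k, e k ≤ m) → (∃ k, e k = m) →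
    (∀ k l, (f k l).IsHomogeneous (e k + e l)) →
    ((∃ k l, f k l + f l k ≠ 0) → (geometricPoints a e f).Nonempty) ∧
    (∀ α β : ℝ, 0 ≤ α → 0 < β → 0 < α + m * β → ∀ ε : ℝ, 0 < ε → ∃ C : ℝ,
      bounded (points a e f Set.univ) α β
        (threshold (r + s - 2) (∑ k, (e k : ℝ)) m N α β + ε) C) ∧
    (∀ (B : Set (ℙ K (Fin N → K))) (A : ℝ), 0 ≤ A → exponent B A →
      ∀ α β : ℝ, 0 ≤ α → 0 < β → 0 < α + m * β → ∀ ε : ℝ, 0 < ε → ∃ C : ℝ,
      bounded (points a e f B) α β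
        (threshold (r + s - 2) (∑ k, (e k : ℝ)) m A α β + ε) C) := by
  intro K _ _ r s N m hr hs hN a e f ha hem hex hf
  have key : ∀ (B : Set (ℙ K (Fin N → K))) (A : ℝ), 0 ≤ A → exponent B A →
      ∀ α β : ℝ, 0 ≤ α → 0 < β → 0 < α + m * β → ∀ ε : ℝ, 0 < ε → ∃ C : ℝ,
      bounded (points a e f B) α β
        (threshold (r + s - 2) (∑ k, (e k : ℝ)) m A α β + ε) C := by
    intro B A hA hB α β hα hβ hαβ ε hε
    obtain ⟨C, hC⟩ := Pool.Agent.Q279.MC.all_FN K r s N m hr hs a ha e hem hex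
      (fun p k l => MvPolynomial.eval p.rep (f k l)) B A hA hB α β hα hβ hαβ ε hε
    refine ⟨C, fun T hT => ?_⟩
    have h := hC T hT
    rw [thr_eq] at h
    rw [set_eq]
    exact h
  exact ⟨nonempty_geometric hN hr a e f ha hf, fun α β hα hβ hαβ ε hε => key Set.univ N (by positivity) (exponent_univ K N)
    α β hα hβ hαβ ε hε, key⟩

end Pool.Agent.Results.MP_18ea5f_nt.QuadricBundles
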